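import Mathlib

/-!
# The generators of hypercyclic algebras need not be dense

Let `X = 𝕜^ℕ` with the product topology, let `T` be the backward shift, and define the
multiplication of `X` by `x y = x(0) y(0) e_1`.  This is a commutative, associative (nilpotent),
continuous bilinear multiplication.  If `x(0) ≠ 0` then the algebra generated by `x` contains
`x² = x(0)² e_1`, which is not hypercyclic.  If `x(0) = 0` the algebra generated by `x` is the line
through `x`.  So the set of generators of hypercyclic algebras is the set of all hypercyclic vectors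
with `x(0) = 0`; it is not empty but contained in a closed hyperplane.
-/

set_option autoImplicit false

open Topology TopologicalSpace

namespace Pool.Agent.Results.MP_6ee6b4_an.NotDense

/-- `y` is a hypercyclic vector for `T`: its orbit `{T^n y : n ≥ 0}` is dense. -/
def IsHypercyclicVector {𝕜 X : Type*} [RCLike 𝕜] [NonUnitalRing X] [Module 𝕜 X]
    [TopologicalSpace X] (T : X →L[𝕜] X) (y : X) : Prop :=
  Dense (Set.range fun n : ℕ => (T ^ n) y)

/-- The set `G(T)` of all `x ≠ 0` such that every nonzero element of the (non-unital) subalgebra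
generated by `x` is a hypercyclic vector for `T`. -/
def generators {𝕜 X : Type*} [RCLike 𝕜] [NonUnitalRing X] [Module 𝕜 X] [IsScalarTower 𝕜 X X]
    [SMulCommClass 𝕜 X X] [TopologicalSpace X] (T : X →L[𝕜] X) : Set X :=
  {x | x ≠ 0 ∧ ∀ y ∈ NonUnitalAlgebra.adjoin 𝕜 {x}, y ≠ 0 → IsHypercyclicVector T y}

variable (𝕜 : Type) [RCLike 𝕜]

/-- the space `𝕜^ℕ` -/
def Om : Type := ℕ → 𝕜

namespace Om

noncomputable instance : AddCommGroup (Om 𝕜) := inferInstanceAs (AddCommGroup (ℕ → 𝕜))
noncomputable instance : Module 𝕜 (Om 𝕜) := inferInstanceAs (Module 𝕜 (ℕ → 𝕜))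
instance : TopologicalSpace (Om 𝕜) := inferInstanceAs (TopologicalSpace (ℕ → 𝕜))
instance : IsTopologicalAddGroup (Om 𝕜) := inferInstanceAs (IsTopologicalAddGroup (ℕ → 𝕜))
instance : ContinuousSMul 𝕜 (Om 𝕜) := inferInstanceAs (ContinuousSMul 𝕜 (ℕ → 𝕜))
instance : IsCompletelyMetrizableSpace (Om 𝕜) :=
  inferInstanceAs (IsCompletelyMetrizableSpace (ℕ → 𝕜))

variable {𝕜}

/-- the product `x y = x(0) y(0) e_1` -/
noncomputable instance : Mul (Om 𝕜) := ⟨fun x y n => if n = 1 then x 0 * y 0 else 0⟩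

theorem mul_apply (x y : Om 𝕜) (n : ℕ) : (x * y) n = if n = 1 then x 0 * y 0 else 0 := rfl

theorem add_apply (x y : Om 𝕜) (n : ℕ) : (x + y) n = x n + y n := rfl

theorem smul_apply (c : 𝕜) (x : Om 𝕜) (n : ℕ) : (c • x) n = c * x n := rfl

theorem zero_apply (n : ℕ) : (0 : Om 𝕜) n = 0 := rfl

omit [RCLike 𝕜] in
@[ext] theorem ext {x y : Om 𝕜} (h : ∀ n, x n = y n) : x = y := funext h

noncomputable instance : NonUnitalCommRing (Om 𝕜) :=
  { (inferInstance : AddCommGroup (Om 𝕜)), (inferInstance : Mul (Om 𝕜)) with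
    left_distrib := fun a b c => by
      ext n; simp only [mul_apply, add_apply]; split_ifs <;> ring
    right_distrib := fun a b c => by
      ext n; simp only [mul_apply, add_apply]; split_ifs <;> ring
    zero_mul := fun a => by
      ext n; simp only [mul_apply, zero_apply]; split_ifs <;> ring
    mul_zero := fun a => by
      ext n; simp only [mul_apply, zero_apply]; split_ifs <;> ring
    mul_assoc := fun a b c => by
      ext n; simp [mul_apply]
    mul_comm := fun a b => by
      ext n; simp only [mul_apply]; split_ifs <;> ring }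

instance : IsScalarTower 𝕜 (Om 𝕜) (Om 𝕜) :=
  ⟨fun c x y => by
    ext n; simp only [smul_eq_mul, mul_apply, smul_apply]; split_ifs <;> ring⟩

instance : SMulCommClass 𝕜 (Om 𝕜) (Om 𝕜) :=
  ⟨fun c x y => by
    ext n; simp only [smul_eq_mul, mul_apply, smul_apply]; split_ifs <;> ring⟩

theorem continuous_eval (n : ℕ) : Continuous fun x : Om 𝕜 => x n :=
  continuous_apply (A := fun _ : ℕ => 𝕜) n

instance : ContinuousMul (Om 𝕜) := by
  refine ⟨?_⟩
  refine continuous_pi (A := fun _ : ℕ => 𝕜) fun n => ?_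
  change Continuous fun p : Om 𝕜 × Om 𝕜 => if n = 1 then p.1 0 * p.2 0 else 0
  split_ifs
  · exact ((continuous_eval 0).comp continuous_fst).mul ((continuous_eval 0).comp continuous_snd)
  · exact continuous_const

/-- the backward shift -/
noncomputable def shift : Om 𝕜 →L[𝕜] Om 𝕜 where
  toFun x := fun n => x (n + 1)
  map_add' _ _ := rfl
  map_smul' _ _ := rfl
  cont := continuous_pi (A := fun _ : ℕ => 𝕜) fun n => continuous_eval (n + 1)

theorem shift_apply (x : Om 𝕜) (n : ℕ) : shift x n = x (n + 1) := rfl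

theorem shift_pow (k : ℕ) (x : Om 𝕜) (n : ℕ) : ((shift ^ k : Om 𝕜 →L[𝕜] Om 𝕜) x) n = x (n + k) := by
  induction k generalizing x with
  | zero => rfl
  | succ k ih =>
    rw [pow_succ]
    change ((shift ^ k : Om 𝕜 →L[𝕜] Om 𝕜) (shift x)) n = _
    rw [ih, shift_apply]
    congr 1

/-- a vector whose coordinates contain every finite sequence of members of a dense sequence -/
noncomputable def univ (n : ℕ) : 𝕜 :=
  if n = 0 then 0 else
    denseSeq 𝕜 (((Encodable.decode (α := List ℕ) (Nat.log 2 n)).getD []).getD (n - 2 ^ Nat.log 2 n) 0)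

theorem univ_spec (l : List ℕ) (i : ℕ) (hi : i < l.length) :
    (univ (2 ^ (Encodable.encode l) + i) : 𝕜) = denseSeq 𝕜 (l.getD i 0) := by
  have h1 : l.length ≤ Encodable.encode l := Encodable.length_le_encode l
  have h2 : Encodable.encode l < 2 ^ (Encodable.encode l) := Nat.lt_two_pow_self
  have h3 : Nat.log 2 (2 ^ (Encodable.encode l) + i) = Encodable.encode l := by
    rw [Nat.log_eq_iff (by omega)]
    constructor
    · omega
    · rw [pow_succ]; omega
  rw [univ, if_neg (by positivity), h3, Encodable.encodek]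
  simp

theorem dense_of (x : Om 𝕜) (hx : ∀ l : List ℕ, ∃ k, ∀ i < l.length,
    x (i + k) = denseSeq 𝕜 (l.getD i 0)) : IsHypercyclicVector (shift : Om 𝕜 →L[𝕜] Om 𝕜) x := by
  intro y
  have h1 : ∀ (N i : ℕ), ∃ m : ℕ, dist (denseSeq 𝕜 m) (y i) < 1 / ((N : ℝ) + 1) := by
    intro N i
    have := (denseRange_denseSeq 𝕜).exists_dist_lt (y i) (ε := 1 / ((N : ℝ) + 1)) (by positivity)
    obtain ⟨m, hm⟩ := this
    exact ⟨m, by rwa [dist_comm]⟩
  choose m hm using h1
  have h2 : ∀ N : ℕ, ∃ k, ∀ i < N, x (i + k) = denseSeq 𝕜 (m N i) := by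
    intro N
    obtain ⟨k, hk⟩ := hx ((List.range N).map (m N))
    refine ⟨k, fun i hi => ?_⟩
    rw [hk i (by simpa using hi)]
    congr 1
    simp [List.getD, hi]
  choose k hk using h2
  refine mem_closure_of_tendsto (f := fun N : ℕ => ((shift ^ (k N) : Om 𝕜 →L[𝕜] Om 𝕜) x))
    (b := Filter.atTop) ?_ (Filter.Eventually.of_forall fun N => ⟨k N, rfl⟩)
  refine (tendsto_pi_nhds (A := fun _ : ℕ => 𝕜)).2 fun i => ?_
  rw [tendsto_iff_dist_tendsto_zero]
  refine squeeze_zero' (Filter.Eventually.of_forall fun N => dist_nonneg) ?_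
    tendsto_one_div_add_atTop_nhds_zero_nat
  filter_upwards [Filter.eventually_gt_atTop i] with N hN
  rw [shift_pow, hk N i hN]
  exact (hm N i).le

theorem univ_hypercyclic : IsHypercyclicVector (shift : Om 𝕜 →L[𝕜] Om 𝕜) (univ : ℕ → 𝕜) := by
  refine dense_of _ fun l => ⟨2 ^ (Encodable.encode l), fun i hi => ?_⟩
  rw [add_comm]
  exact univ_spec l i hi

theorem hypercyclic_smul {x : Om 𝕜} (hx : IsHypercyclicVector (shift : Om 𝕜 →L[𝕜] Om 𝕜) x)
    {c : 𝕜} (hc : c ≠ 0) : IsHypercyclicVector (shift : Om 𝕜 →L[𝕜] Om 𝕜) (c • x) := by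
  have h1 : DenseRange fun y : Om 𝕜 => c • y := by
    refine Function.Surjective.denseRange fun y => ⟨c⁻¹ • y, ?_⟩
    simp [smul_smul, hc]
  have h2 := h1.dense_image (continuous_const_smul c) hx
  refine h2.mono ?_
  rintro _ ⟨_, ⟨n, rfl⟩, rfl⟩
  exact ⟨n, by simp⟩

theorem proper_closed (n : ℕ) : IsClosed {z : Om 𝕜 | z n = 0} :=
  isClosed_eq (continuous_eval n) continuous_const

theorem not_dense_of_subset {s : Set (Om 𝕜)} {n : ℕ} (h : s ⊆ {z : Om 𝕜 | z n = 0}) :
    ¬ Dense s := by
  intro hd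
  have h1 : (fun _ => 1 : Om 𝕜) ∈ {z : Om 𝕜 | z n = 0} :=
    closure_minimal h (proper_closed n) (hd _)
  exact one_ne_zero (α := 𝕜) h1

theorem not_hypercyclic {y : Om 𝕜} (hy : ∀ n, 2 ≤ n → y n = 0) :
    ¬ IsHypercyclicVector (shift : Om 𝕜 →L[𝕜] Om 𝕜) y := by
  refine not_dense_of_subset (n := 2) ?_
  rintro _ ⟨n, rfl⟩
  change ((shift ^ n : Om 𝕜 →L[𝕜] Om 𝕜) y) 2 = 0
  rw [shift_pow]
  exact hy _ (by omega)

theorem mem_adjoin {x y : Om 𝕜} (h0 : x 0 = 0) (hy : y ∈ NonUnitalAlgebra.adjoin 𝕜 {x}) :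
    ∃ c : 𝕜, y = c • x := by
  have hxx : x * x = 0 := by
    ext n
    simp [mul_apply, zero_apply, h0]
  induction hy using NonUnitalAlgebra.adjoin_induction with
  | mem z hz =>
    rw [Set.mem_singleton_iff] at hz
    exact ⟨1, by rw [hz, one_smul]⟩
  | add a b _ _ ha hb =>
    obtain ⟨c, rfl⟩ := ha
    obtain ⟨d, rfl⟩ := hb
    exact ⟨c + d, by rw [add_smul]⟩
  | zero => exact ⟨0, by rw [zero_smul]⟩
  | mul a b _ _ ha hb =>
    obtain ⟨c, rfl⟩ := ha
    obtain ⟨d, rfl⟩ := hb
    exact ⟨0, by rw [smul_mul_smul_comm, hxx, smul_zero, zero_smul]⟩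
  | smul r a _ ha =>
    obtain ⟨c, rfl⟩ := ha
    exact ⟨r * c, by rw [smul_smul]⟩

theorem generators_eq : generators (shift : Om 𝕜 →L[𝕜] Om 𝕜) =
    {x | IsHypercyclicVector (shift : Om 𝕜 →L[𝕜] Om 𝕜) x ∧ x 0 = 0} := by
  ext x
  constructor
  · rintro ⟨hx, h⟩
    refine ⟨h x (NonUnitalAlgebra.self_mem_adjoin_singleton 𝕜 x) hx, ?_⟩
    by_contra h0
    have h1 : x * x ∈ NonUnitalAlgebra.adjoin 𝕜 {x} :=
      mul_mem (NonUnitalAlgebra.self_mem_adjoin_singleton 𝕜 x)
        (NonUnitalAlgebra.self_mem_adjoin_singleton 𝕜 x)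
    have h2 : x * x ≠ 0 := by
      intro h2
      have h3 := congrArg (fun z : Om 𝕜 => z 1) h2
      simp only [mul_apply, zero_apply, if_true] at h3
      exact h0 (mul_self_eq_zero.1 h3)
    refine not_hypercyclic ?_ (h _ h1 h2)
    intro n hn
    rw [mul_apply, if_neg (by omega)]
  · rintro ⟨hx, h0⟩
    refine ⟨?_, fun y hy hy0 => ?_⟩
    · rintro rfl
      exact not_hypercyclic (fun n _ => rfl) hx
    · obtain ⟨c, rfl⟩ := mem_adjoin h0 hy
      refine hypercyclic_smul hx ?_
      rintro rfl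
      exact hy0 (zero_smul 𝕜 x)

end Om

/-- **The set of generators of hypercyclic algebras can be nonempty without being dense (and then
it is not residual).** For `𝕜 = ℝ` or `ℂ` there are an `F`-algebra `X` over `𝕜` (a topological vector
space with a complete metric, and an associative, even commutative, jointly continuous bilinear
multiplication) and a continuous linear map `T : X → X` such that the set `G(T)` of all generators
of hypercyclic algebras is not empty, not dense in `X`, and not residual in `X`. -/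
theorem result (𝕜 : Type) [RCLike 𝕜] :
    ∃ (X : Type) (_ : NonUnitalCommRing X) (_ : Module 𝕜 X) (_ : IsScalarTower 𝕜 X X)
      (_ : SMulCommClass 𝕜 X X) (_ : TopologicalSpace X) (_ : IsTopologicalAddGroup X)
      (_ : ContinuousSMul 𝕜 X) (_ : IsCompletelyMetrizableSpace X) (_ : ContinuousMul X)
      (T : X →L[𝕜] X),
      (generators T).Nonempty ∧ ¬ Dense (generators T) ∧ generators T ∉ residual X := by
  have hd : ¬ Dense (generators (Om.shift : Om 𝕜 →L[𝕜] Om 𝕜)) := by
    rw [Om.generators_eq]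
    exact Om.not_dense_of_subset (n := 0) fun x hx => hx.2
  refine ⟨Om 𝕜, inferInstance, inferInstance, inferInstance, inferInstance, inferInstance,
    inferInstance, inferInstance, inferInstance, inferInstance, Om.shift, ?_, hd, ?_⟩
  · rw [Om.generators_eq]
    exact ⟨Om.univ, Om.univ_hypercyclic, by simp [Om.univ]⟩
  · exact fun h => hd (dense_of_mem_residual h)

end Pool.Agent.Results.MP_6ee6b4_an.NotDense
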